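import Pool.Agent.Helper77.Cov.Assemble
import Pool.Agent.Helper77.Cov.Curv

/-!
# The covariogram problem for convex bodies of class `C²₊`

For every `n ≥ 2` (in particular for every `n ≥ 3`), a convex body of class `C²₊` in `ℝⁿ` is
determined by its covariogram among the convex bodies of class `C²₊`, up to translations and
reflections.

Outline of the proof. Equality of the covariograms gives
`F_K(ζ) F_K(-ζ) = F_H(ζ) F_H(-ζ)` for all complex covectors `ζ`, where `F` is the Fourier transform
of the indicator function, and equality of the widths. Along a real direction `u`, the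
asymptotics of `F_K(λ u)` (in the mean over `u`, which is what the `C²` regularity allows) has two
terms, with amplitudes the inverse square roots of the Gauss curvatures at the points with
normals `u` and `-u`; the product identity gives that the unordered pairs of these curvatures agree
for `K` and `H`. By an argument with the zeros of entire functions the zeros of `F_K(z u)` and
`F_H(z u)` almost cancel if the pairs agree in the same order, and a positive proportion
of them does not cancel if they agree in the opposite order. A submean value inequality
for the number of poles of a quotient of two families of entire functions depending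
holomorphically on a parameter (from Hankel determinants) shows that the two
kinds of directions cannot both occur. Then Minkowski's uniqueness theorem (proved here for
support functions of class `C²`) shows `H = K + z` or `H = -K + z`.
-/

open MeasureTheory Set
open Pool.Agent.Helper77.Covariogram

namespace Pool.Agent.Results.MP_fb1ba4_gt.CovariogramC2Plus

/-- **The covariogram problem for `C²₊` bodies.** Let `n ≥ 2` and let `H, K ⊂ ℝⁿ` be convex bodies
of class `C²₊` with the same covariogram. Then `H = K + z` or `H = -K + z` for some `z`. -/
theorem result {n : ℕ} (hn : 2 ≤ n) {H K : Set (EuclideanSpace ℝ (Fin n))}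
    (hH : IsC2PlusBody H) (hK : IsC2PlusBody K) (hg : covariogram H = covariogram K) :
    ∃ z : EuclideanSpace ℝ (Fin n), H = (fun y => y + z) '' K ∨ H = (fun y => -y + z) '' K := by
  obtain ⟨d, rfl⟩ : ∃ d, n = d + 1 := ⟨n - 1, by omega⟩
  have hS : ∀ {A : Set (EuclideanSpace ℝ (Fin (d + 1)))}, IsC2PlusBody A →
      Pool.Agent.Helper77.Cov.SBody A := by
    intro A hA
    have h1 := Pool.Agent.Helper77.Cov.IsC2PlusBody_isBody hA
    have h2 := Pool.Agent.Helper5.Cov.supp_of_CkPlus h1
      (Pool.Agent.Helper77.Cov.IsC2PlusBody_ckPlus (by omega) hA)
    exact ⟨h1, h2.1, h2.2⟩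
  have hgE : ∀ x, Pool.Agent.Helper77.Cov.gE K x = Pool.Agent.Helper77.Cov.gE H x := by
    intro x
    have h1 := congrFun hg x
    unfold covariogram at h1
    have hfin : ∀ {A : Set (EuclideanSpace ℝ (Fin (d + 1)))}, IsC2PlusBody A →
        volume (A ∩ ((fun y => y + x) '' A)) ≠ ⊤ := fun hA =>
      ((measure_mono inter_subset_left).trans_lt hA.isCompact.measure_lt_top).ne
    exact ((ENNReal.toReal_eq_toReal_iff' (hfin hH) (hfin hK)).1 h1).symm
  obtain ⟨z, hz⟩ := Pool.Agent.Helper77.Cov.main_SBody (by omega) (hS hK) (hS hH) hgE
  refine ⟨z, hz.imp id (fun h => ?_)⟩
  rw [h, ← image_neg_eq_neg, image_image]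

end Pool.Agent.Results.MP_fb1ba4_gt.CovariogramC2Plus
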